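import Mathlib

open Finset

namespace Pool.Agent.Results.MP_a41a76_co.MXSNotEEF1

/-- The value of the set `S` of items under the additive valuation with item values `w`. -/
def val {M : Type} (w : M → ℝ) (S : Finset M) : ℝ := ∑ g ∈ S, w g

/-- `B` is an allocation of the items of `M` to the agents `Fin n` (a partition of `M` into `n`
possibly empty bundles): every item lies in exactly one bundle. -/
def IsAllocation {n : ℕ} {M : Type} (B : Fin n → Finset M) : Prop :=
  ∀ g : M, ∃! i : Fin n, g ∈ B i

/-- Agent `i` is EF1-satisfied by `B`. -/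
def EF1Sat {n : ℕ} {M : Type} [DecidableEq M] (v : Fin n → M → ℝ) (B : Fin n → Finset M)
    (i : Fin n) : Prop :=
  ∀ j : Fin n, j ≠ i → val (v i) (B i) ≥ val (v i) (B j) ∨
    ∃ g ∈ B j, val (v i) (B i) ≥ val (v i) (B j \ {g})

/-- Agent `i` is EFX-satisfied by `B`. -/
def EFXSat {n : ℕ} {M : Type} [DecidableEq M] (v : Fin n → M → ℝ) (B : Fin n → Finset M)
    (i : Fin n) : Prop :=
  ∀ j : Fin n, j ≠ i → ∀ g ∈ B j, 0 < v i g → val (v i) (B i) ≥ val (v i) (B j \ {g})

/-- `A` is EEF1 (epistemic EF1) for agent `i`. -/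
def EEF1 {n : ℕ} {M : Type} [DecidableEq M] (v : Fin n → M → ℝ) (A : Fin n → Finset M)
    (i : Fin n) : Prop :=
  ∃ B : Fin n → Finset M, IsAllocation B ∧ B i = A i ∧ EF1Sat v B i

/-- `A` is MXS (minimum EFX share) for agent `i`. -/
def MXS {n : ℕ} {M : Type} [DecidableEq M] (v : Fin n → M → ℝ) (A : Fin n → Finset M)
    (i : Fin n) : Prop :=
  ∃ B : Fin n → Finset M, IsAllocation B ∧ EFXSat v B i ∧ val (v i) (A i) ≥ val (v i) (B i)

/-- Item values of the counterexample: items are pairs `(j, k)`, item `(0, 0)` has value `1`, the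
items `(1, 0)` and `(2, 0)` have value `3`, all the others have value `2`. -/
def w (m : ℕ) (g : Fin (m + 3) × Fin 4) : ℝ :=
  if g.2 = 0 then (if g.1.val = 0 then 1 else if g.1.val < 3 then 3 else 2) else 2

/-- The owner of an item in the bad allocation. -/
def own (m : ℕ) (g : Fin (m + 3) × Fin 4) : Fin (m + 3) :=
  if g.2 = 0 then (if g.1.val < 3 then 0 else g.1)
  else (if g.1.val = 0 then (if g.2 = 1 then 1 else 2) else g.1)

/-- The bundle of agent `i` in the allocation with owner function `o`. -/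
def bun {m : ℕ} (o : Fin (m + 3) × Fin 4 → Fin (m + 3)) (i : Fin (m + 3)) :
    Finset (Fin (m + 3) × Fin 4) := univ.filter (fun g => o g = i)

lemma bun_alloc {m : ℕ} (o : Fin (m + 3) × Fin 4 → Fin (m + 3)) : IsAllocation (bun o) := by
  intro g
  refine ⟨o g, by simp [bun], ?_⟩
  intro i hi
  simp [bun] at hi
  exact hi.symm

lemma mem_bun {m : ℕ} (o : Fin (m + 3) × Fin 4 → Fin (m + 3)) (i : Fin (m + 3))
    (g : Fin (m + 3) × Fin 4) : g ∈ bun o i ↔ o g = i := by
  simp [bun]

lemma two_ne_zero4 : (2 : Fin 4) ≠ 0 := by decide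

lemma three_ne_zero4 : (3 : Fin 4) ≠ 0 := by decide

lemma w_pos (m : ℕ) (g : Fin (m + 3) × Fin 4) : 0 < w m g := by
  unfold w
  split_ifs <;> norm_num

lemma w_ge_two (m : ℕ) (g : Fin (m + 3) × Fin 4) (h : g ≠ (0, 0)) : 2 ≤ w m g := by
  unfold w
  split_ifs with h1 h2 h3 <;> try norm_num
  exfalso
  apply h
  ext
  · simpa using h2
  · simp [h1]

lemma val_row (m : ℕ) (j : Fin (m + 3)) :
    val (w m) (univ.filter (fun g : Fin (m + 3) × Fin 4 => g.1 = j)) =
      (if j.val = 0 then 7 else if j.val < 3 then 9 else 8) := by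
  have : (univ.filter (fun g : Fin (m + 3) × Fin 4 => g.1 = j)) =
      {(j, 0), (j, 1), (j, 2), (j, 3)} := by
    ext ⟨a, b⟩
    simp only [mem_filter, mem_univ, true_and, mem_insert, mem_singleton, Prod.mk.injEq]
    constructor
    · intro h
      fin_cases b <;> simp [h]
    · rintro (h | h | h | h) <;> exact h.1
  rw [this]
  unfold val w
  rw [sum_insert (by simp), sum_insert (by simp), sum_insert (by simp), sum_singleton]
  simp only [↓reduceIte, two_ne_zero4, three_ne_zero4, one_ne_zero]
  split_ifs <;> norm_num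

/-- The EFX allocation for agent `i`. -/
def efx (m : ℕ) (i : Fin (m + 3)) : Fin (m + 3) → Finset (Fin (m + 3) × Fin 4) :=
  bun (fun g => Equiv.swap 0 i g.1)

lemma efx_bundle (m : ℕ) (i j : Fin (m + 3)) :
    efx m i j = univ.filter (fun g : Fin (m + 3) × Fin 4 => g.1 = Equiv.swap 0 i j) := by
  unfold efx bun
  ext g
  simp only [mem_filter, mem_univ, true_and]
  constructor
  · intro h
    rw [← h, Equiv.swap_apply_self]
  · intro h
    rw [h, Equiv.swap_apply_self]

lemma efx_val_self (m : ℕ) (i : Fin (m + 3)) : val (w m) (efx m i i) = 7 := by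
  rw [efx_bundle, Equiv.swap_apply_right, val_row]
  simp

lemma efx_sat (m : ℕ) (i : Fin (m + 3)) : EFXSat (fun _ => w m) (efx m i) i := by
  intro j hj g hg _
  simp only
  rw [efx_val_self]
  have hval : val (w m) (efx m i j \ {g}) = val (w m) (efx m i j) - w m g := by
    unfold val
    rw [Finset.sum_sdiff_eq_sub (by simpa using hg)]
    simp
  rw [hval]
  have h1 : val (w m) (efx m i j) ≤ 9 := by
    rw [efx_bundle, val_row]
    split_ifs <;> norm_num
  have h2 : 2 ≤ w m g := by
    apply w_ge_two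
    rintro rfl
    rw [efx_bundle] at hg
    simp only [mem_filter, mem_univ, true_and] at hg
    apply hj
    have := congrArg (Equiv.swap 0 i) hg
    rw [Equiv.swap_apply_self, Equiv.swap_apply_left] at this
    exact this.symm
  show 7 ≥ _
  linarith

lemma bun_own_zero (m : ℕ) : bun (own m) 0 = {((0 : Fin (m + 3)), (0 : Fin 4)), (1, 0), (2, 0)} := by
  ext ⟨a, b⟩
  rw [mem_bun]
  simp only [own, mem_insert, mem_singleton, Prod.mk.injEq]
  constructor
  · intro h
    split_ifs at h with h1 h2 h3 h4
    · have : a.val = 0 ∨ a.val = 1 ∨ a.val = 2 := by omega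
      rcases this with h | h | h
      · left; exact ⟨Fin.ext h, h1⟩
      · right; left; exact ⟨Fin.ext (by rw [h]; rfl), h1⟩
      · right; right; exact ⟨Fin.ext (by rw [h]; rfl), h1⟩
    · exfalso; rw [h] at h2; exact h2 (by simp)
    · exfalso; exact absurd (congrArg Fin.val h) (by simp)
    · exfalso
      have h2 : ((2 : Fin (m + 3)) : ℕ) = 2 := rfl
      have := congrArg Fin.val h
      rw [h2] at this
      simp at this
    · exfalso; exact h3 (by rw [h]; rfl)
  · rintro (⟨rfl, rfl⟩ | ⟨rfl, rfl⟩ | ⟨rfl, rfl⟩)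
    · simp
    · simp
    · have : ((2 : Fin (m + 3)) : ℕ) = 2 := rfl
      simp only [this]
      norm_num

lemma val_mono (m : ℕ) {S T : Finset (Fin (m + 3) × Fin 4)} (h : S ⊆ T) :
    val (w m) S ≤ val (w m) T :=
  Finset.sum_le_sum_of_subset_of_nonneg h (fun g _ _ => (w_pos m g).le)

lemma own_val_zero (m : ℕ) : val (w m) (bun (own m) 0) = 7 := by
  rw [bun_own_zero]
  have h1 : ((1 : Fin (m + 3)) : ℕ) = 1 := rfl
  have h2 : ((2 : Fin (m + 3)) : ℕ) = 2 := rfl
  have h01 : (0 : Fin (m + 3)) ≠ 1 := fun h => absurd (congrArg Fin.val h) (by simp)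
  have h02 : (0 : Fin (m + 3)) ≠ 2 := fun h => absurd (congrArg Fin.val h) (by rw [h2]; simp)
  have h12 : (1 : Fin (m + 3)) ≠ 2 := fun h => absurd (congrArg Fin.val h) (by rw [h2, h1]; simp)
  unfold val
  rw [sum_insert (by simp [h01, h02]), sum_insert (by simp [h12]), sum_singleton]
  unfold w
  simp only [↓reduceIte, h1, h2]
  norm_num

lemma own_val_ge (m : ℕ) (i : Fin (m + 3)) : 7 ≤ val (w m) (bun (own m) i) := by
  have h1 : ((1 : Fin (m + 3)) : ℕ) = 1 := rfl
  have h2 : ((2 : Fin (m + 3)) : ℕ) = 2 := rfl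
  have h01 : (0 : Fin (m + 3)) ≠ 1 := fun h => absurd (congrArg Fin.val h) (by simp)
  have h02 : (0 : Fin (m + 3)) ≠ 2 := fun h => absurd (congrArg Fin.val h) (by rw [h2]; simp)
  by_cases hi0 : i = 0
  · subst hi0; rw [own_val_zero]
  by_cases hi1 : i = 1
  · subst hi1
    have hsub : ({(0, 1), (1, 1), (1, 2), (1, 3)} : Finset (Fin (m + 3) × Fin 4)) ⊆ bun (own m) 1 := by
      intro g hg
      simp only [mem_insert, mem_singleton] at hg
      rcases hg with rfl | rfl | rfl | rfl <;>
        simp [mem_bun, own, two_ne_zero4, three_ne_zero4]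
    refine le_trans ?_ (val_mono m hsub)
    unfold val
    rw [sum_insert (by simp [h01]), sum_insert (by simp), sum_insert (by simp), sum_singleton]
    simp only [w, one_ne_zero, two_ne_zero4, three_ne_zero4, if_false]
    norm_num
  by_cases hi2 : i = 2
  · subst hi2
    have hsub : ({(0, 2), (0, 3), (2, 1), (2, 2), (2, 3)} : Finset (Fin (m + 3) × Fin 4)) ⊆
        bun (own m) 2 := by
      intro g hg
      simp only [mem_insert, mem_singleton] at hg
      rw [mem_bun]
      rcases hg with rfl | rfl | rfl | rfl | rfl <;>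
        simp only [own, h2, one_ne_zero, two_ne_zero4, three_ne_zero4, if_false, Fin.val_zero,
          if_true, OfNat.ofNat_ne_zero]
      · exact if_neg (by decide)
      · exact if_neg (by decide)
    refine le_trans ?_ (val_mono m hsub)
    unfold val
    rw [sum_insert (by simp [h02]), sum_insert (by simp [h02]), sum_insert (by simp),
      sum_insert (by simp), sum_singleton]
    simp only [w, one_ne_zero, two_ne_zero4, three_ne_zero4, if_false]
    norm_num
  · have h3 : 3 ≤ i.val := by
      have a0 : i.val ≠ 0 := fun h => hi0 (Fin.ext h)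
      have a1 : i.val ≠ 1 := fun h => hi1 (Fin.ext h)
      have a2 : i.val ≠ 2 := fun h => hi2 (Fin.ext h)
      omega
    have hsub : (univ.filter (fun g : Fin (m + 3) × Fin 4 => g.1 = i)) ⊆ bun (own m) i := by
      intro g hg
      simp only [mem_filter, mem_univ, true_and] at hg
      rw [mem_bun]
      simp only [own, hg]
      split_ifs <;> first | rfl | omega
    refine le_trans ?_ (val_mono m hsub)
    rw [val_row]
    split_ifs <;> norm_num

lemma alloc_card {n : ℕ} {M : Type} [Fintype M] [DecidableEq M] {B : Fin n → Finset M}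
    (hB : IsAllocation B) : ∑ i, (B i).card = Fintype.card M := by
  have h1 : ∀ i, (B i).card = ∑ g : M, (if g ∈ B i then 1 else 0) := by
    intro i
    simp
  simp_rw [h1]
  rw [Finset.sum_comm]
  have h2 : ∀ g : M, ∑ i : Fin n, (if g ∈ B i then 1 else 0) = 1 := by
    intro g
    obtain ⟨i, hi, hu⟩ := hB g
    rw [Finset.sum_eq_single i]
    · simp [hi]
    · intro j _ hj
      have : g ∉ B j := fun h => hj (hu j h)
      simp [this]
    · simp
  simp_rw [h2]
  simp

lemma not_eef1 (m : ℕ) : ¬ EEF1 (fun _ => w m) (bun (own m)) 0 := by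
  rintro ⟨B, hB, hB0, hsat⟩
  have hw : ∀ j, j ≠ 0 → ∀ g ∈ B j, w m g = 2 := by
    intro j hj g hg
    have hg0 : g ∉ B 0 := by
      intro h
      obtain ⟨i, _, hu⟩ := hB g
      exact hj ((hu j hg).trans (hu 0 h).symm)
    rw [hB0, bun_own_zero] at hg0
    simp only [mem_insert, mem_singleton, not_or] at hg0
    unfold w
    split_ifs with a b c
    · exfalso
      apply hg0.1
      ext
      · simpa using b
      · simp [a]
    · exfalso
      have : g.1.val = 1 ∨ g.1.val = 2 := by omega
      rcases this with h | h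
      · apply hg0.2.1
        ext
        · simpa using h
        · simp [a]
      · apply hg0.2.2
        ext
        · exact h
        · simp [a]
    · rfl
    · rfl
  have hval : ∀ j, j ≠ 0 → ∀ S, S ⊆ B j → val (w m) S = 2 * (S.card : ℝ) := by
    intro j hj S hS
    unfold val
    rw [Finset.sum_congr rfl (fun g hg => hw j hj g (hS hg))]
    simp [mul_comm]
  have hcard : ∀ j, j ≠ 0 → (B j).card ≤ 4 := by
    intro j hj
    rcases hsat j hj with h | ⟨g, hg, h⟩
    · simp only at h
      rw [hval j hj _ (Finset.Subset.refl _), hB0, own_val_zero] at h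
      have h' : 2 * ((B j).card : ℝ) ≤ 7 := h
      by_contra hc
      push Not at hc
      have : (5 : ℝ) ≤ ((B j).card : ℝ) := by exact_mod_cast hc
      linarith
    · simp only at h
      rw [hval j hj _ (Finset.sdiff_subset), hB0, own_val_zero] at h
      have hc1 : (B j \ {g}).card = (B j).card - 1 := by
        rw [Finset.card_sdiff_of_subset (by simpa using hg)]
        simp
      rw [hc1] at h
      by_contra hc
      push Not at hc
      have h4 : 4 ≤ (B j).card - 1 := by omega
      have : (4 : ℝ) ≤ (((B j).card - 1 : ℕ) : ℝ) := by exact_mod_cast h4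
      have h' : 2 * (((B j).card - 1 : ℕ) : ℝ) ≤ 7 := h
      linarith
  have hsum := alloc_card hB
  rw [Fin.sum_univ_succ] at hsum
  have hB0c : (B 0).card = 3 := by
    rw [hB0, bun_own_zero]
    have h2 : ((2 : Fin (m + 3)) : ℕ) = 2 := rfl
    have h1 : ((1 : Fin (m + 3)) : ℕ) = 1 := rfl
    have h01 : (0 : Fin (m + 3)) ≠ 1 := fun h => absurd (congrArg Fin.val h) (by simp)
    have h02 : (0 : Fin (m + 3)) ≠ 2 := fun h => absurd (congrArg Fin.val h) (by rw [h2]; simp)
    have h12 : (1 : Fin (m + 3)) ≠ 2 := fun h => absurd (congrArg Fin.val h) (by rw [h2, h1]; simp)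
    rw [card_insert_of_notMem (by simp [h01, h02]), card_insert_of_notMem (by simp [h12]),
      card_singleton]
  have hle : ∑ i : Fin (m + 2), (B i.succ).card ≤ ∑ _i : Fin (m + 2), 4 :=
    Finset.sum_le_sum (fun i _ => hcard _ (Fin.succ_ne_zero i))
  simp only [sum_const, card_univ, Fintype.card_fin, smul_eq_mul] at hle
  simp only [Fintype.card_prod, Fintype.card_fin] at hsum
  omega

/-- **MXS does not imply EEF1, for any number `n ≥ 3` of agents.**  For every `n ≥ 3` there is an
instance with `n` agents with identical additive valuations over goods, all item values being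
`1`, `2` or `3`, and an allocation that is MXS for every agent but not EEF1 for some agent. -/
theorem result : ∀ n : ℕ, 3 ≤ n →
    ∃ (M : Type) (_ : Fintype M) (_ : DecidableEq M) (v : Fin n → M → ℝ) (A : Fin n → Finset M),
      (∀ i g, v i g = 1 ∨ v i g = 2 ∨ v i g = 3) ∧ (∀ i j, v i = v j) ∧
      IsAllocation A ∧ (∀ i, MXS v A i) ∧ ∃ i, ¬ EEF1 v A i := by
  intro n hn
  obtain ⟨m, rfl⟩ : ∃ m, n = m + 3 := ⟨n - 3, by omega⟩
  refine ⟨Fin (m + 3) × Fin 4, inferInstance, inferInstance, fun _ => w m, bun (own m), ?_,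
    fun _ _ => rfl, bun_alloc _, ?_, 0, not_eef1 m⟩
  · intro _ g
    simp only [w]
    split_ifs <;> simp
  · intro i
    refine ⟨efx m i, bun_alloc _, efx_sat m i, ?_⟩
    simp only
    rw [efx_val_self]
    exact own_val_ge m i

end Pool.Agent.Results.MP_a41a76_co.MXSNotEEF1
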